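import Mathlib

set_option autoImplicit false

/-!
Trilinear form, RD inequality (squared form) on a measurable group.
-/

open MeasureTheory
open scoped ENNReal

namespace Pool.Agent.H58RD

variable {G : Type*} [Group G] [MeasurableSpace G]

/-- the trilinear form `∫∫ f(h) ξ(k) η(hk)`. -/
noncomputable def TT (μ : Measure G) (f ξ η : G → ℝ≥0∞) : ℝ≥0∞ :=
  ∫⁻ h, ∫⁻ k, f h * ξ k * η (h * k) ∂μ ∂μ

/-- RD inequality (in squared form, constant `κ`) for `f` vanishing off `B` and `ξ` vanishing off `A`. -/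
def RDI (μ : Measure G) (A B : Set G) (κ : ℝ≥0∞) : Prop :=
  ∀ f ξ η : G → ℝ≥0∞, Measurable f → Measurable ξ → Measurable η →
    (∀ g, g ∉ B → f g = 0) → (∀ g, g ∉ A → ξ g = 0) →
    (TT μ f ξ η) ^ 2 ≤
      κ * (∫⁻ g, f g ^ 2 ∂μ) * (∫⁻ g, ξ g ^ 2 ∂μ) * (∫⁻ g, η g ^ 2 ∂μ)

end Pool.Agent.H58RD
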