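import Mathlib
import Pool.Agent.H58RD.CoreDefs

set_option autoImplicit false

/-!
Task A: elementary properties of the trilinear RD inequality and the core decomposition theorem.
-/

open MeasureTheory
open scoped ENNReal

namespace Pool.Agent.H58RD

variable {G : Type*} [Group G] [MeasurableSpace G]

/-- square root in `[0, ∞]` -/
noncomputable def sqr (x : ℝ≥0∞) : ℝ≥0∞ := x ^ (1 / 2 : ℝ)

theorem sqr_sq (x : ℝ≥0∞) : (sqr x) ^ 2 = x := by
  unfold sqr
  rw [← ENNReal.rpow_natCast, ← ENNReal.rpow_mul]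
  norm_num

theorem le_of_sq_le_sq {x y : ℝ≥0∞} (h : x ^ 2 ≤ y ^ 2) : x ≤ y :=
  (ENNReal.pow_right_strictMono two_ne_zero).le_iff_le.1 h

/-- Cauchy-Schwarz, squared form. -/
theorem cs {α : Type*} [MeasurableSpace α] (μ : Measure α) {f g : α → ℝ≥0∞}
    (hf : AEMeasurable f μ) (hg : AEMeasurable g μ) :
    (∫⁻ a, f a * g a ∂μ) ^ 2 ≤ (∫⁻ a, f a ^ 2 ∂μ) * (∫⁻ a, g a ^ 2 ∂μ) := by
  have h := ENNReal.lintegral_mul_le_Lp_mul_Lq μ (Real.HolderConjugate.two_two) hf hg
  have h2 := pow_le_pow_left₀ (zero_le) h 2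
  refine le_trans (le_of_eq ?_) (le_trans h2 (le_of_eq ?_))
  · rfl
  · rw [mul_pow]
    have e : ∀ x : ℝ≥0∞, (x ^ (1 / 2 : ℝ)) ^ 2 = x := sqr_sq
    rw [e, e]
    congr 1
    · exact lintegral_congr fun a => by rw [ENNReal.rpow_two]
    · exact lintegral_congr fun a => by rw [ENNReal.rpow_two]

theorem cs_tsum {ι : Type*} (a b : ι → ℝ≥0∞) :
    (∑' i, a i * b i) ^ 2 ≤ (∑' i, a i ^ 2) * (∑' i, b i ^ 2) := by
  let _ : MeasurableSpace ι := ⊤
  have h := cs (Measure.count : Measure ι) (f := a) (g := b)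
    (measurable_from_top).aemeasurable (measurable_from_top).aemeasurable
  rwa [lintegral_count, lintegral_count, lintegral_count] at h

theorem RDI.mono {μ : Measure G} {A A' B B' : Set G} {κ κ' : ℝ≥0∞}
    (h : RDI μ A B κ) (hA : A' ⊆ A) (hB : B' ⊆ B) (hκ : κ ≤ κ') : RDI μ A' B' κ' := by
  intro f ξ η hf hξ hη hfB hξA
  refine (h f ξ η hf hξ hη (fun g hg => hfB g fun h' => hg (hB h'))
    (fun g hg => hξA g fun h' => hg (hA h'))).trans ?_
  gcongr

/-- trivial bound: `f` supported in a set of finite measure. -/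
theorem rdi_of_measure [MeasurableMul₂ G] (μ : Measure G) [SFinite μ] [μ.IsMulLeftInvariant]
    (A B : Set G) (hB : MeasurableSet B) : RDI μ A B (μ B) := by
  intro f ξ η hf hξ hη hfB hξA
  set g : G → ℝ≥0∞ := fun h => ∫⁻ k, ξ k * η (h * k) ∂μ with hg
  have hjoint : Measurable (fun p : G × G => ξ p.2 * η (p.1 * p.2)) :=
    (hξ.comp measurable_snd).mul (hη.comp measurable_mul)
  have hgm : Measurable g := hjoint.lintegral_prod_right'
  have hg2 : ∀ h, g h ^ 2 ≤ (∫⁻ k, ξ k ^ 2 ∂μ) * (∫⁻ k, η k ^ 2 ∂μ) := by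
    intro h
    have h1 := cs μ (f := ξ) (g := fun k => η (h * k)) hξ.aemeasurable
      (hη.comp (measurable_const_mul h)).aemeasurable
    refine h1.trans (le_of_eq ?_)
    rw [lintegral_mul_left_eq_self (fun k => η k ^ 2) h]
  have hTT : TT μ f ξ η = ∫⁻ h, f h * (B.indicator g) h ∂μ := by
    unfold TT
    refine lintegral_congr fun h => ?_
    by_cases hh : h ∈ B
    · rw [Set.indicator_of_mem hh, hg]
      rw [← lintegral_const_mul]
      · exact lintegral_congr fun k => by rw [mul_assoc]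
      · exact hξ.mul (hη.comp (measurable_const_mul h))
    · rw [hfB h hh]
      simp
  rw [hTT]
  refine (cs μ hf.aemeasurable (hgm.indicator hB).aemeasurable).trans ?_
  have h3 : ∫⁻ h, (B.indicator g h) ^ 2 ∂μ ≤
      μ B * ((∫⁻ k, ξ k ^ 2 ∂μ) * (∫⁻ k, η k ^ 2 ∂μ)) := by
    have h4 : ∀ h, (B.indicator g h) ^ 2 ≤
        B.indicator (fun _ => (∫⁻ k, ξ k ^ 2 ∂μ) * (∫⁻ k, η k ^ 2 ∂μ)) h := by
      intro h
      by_cases hh : h ∈ B
      · rw [Set.indicator_of_mem hh, Set.indicator_of_mem hh]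
        exact hg2 h
      · rw [Set.indicator_of_notMem hh, Set.indicator_of_notMem hh]
        simp
    refine (lintegral_mono h4).trans (le_of_eq ?_)
    rw [lintegral_indicator hB, setLIntegral_const, mul_comm]
  refine (mul_le_mul_right h3 _).trans (le_of_eq ?_)
  ring

/-- invariance. -/
theorem RDI.conj [MeasurableMul₂ G] {μ : Measure G} [SFinite μ] [μ.IsMulLeftInvariant]
    [μ.IsMulRightInvariant] {X Y : Set G} {κ : ℝ≥0∞} (h : RDI μ X Y κ) (a b c : G) :
    RDI μ {k | b⁻¹ * k * c ∈ X} {k | a⁻¹ * k * b ∈ Y} κ := by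
  intro f ξ η hf hξ hη hfB hξA
  have key : ∀ (F : G → ℝ≥0∞) (u v : G), ∫⁻ g, F (u * g * v) ∂μ = ∫⁻ g, F g ∂μ := by
    intro F u v
    rw [lintegral_mul_left_eq_self (fun g => F (g * v)) u]
    exact lintegral_mul_right_eq_self F v
  have hm : ∀ u v : G, Measurable (fun g : G => u * g * v) := fun u v =>
    (measurable_const_mul u).mul_const v
  have h1 := h (fun g => f (a * g * b⁻¹)) (fun g => ξ (b * g * c⁻¹)) (fun g => η (a * g * c⁻¹))
    (hf.comp (hm _ _)) (hξ.comp (hm _ _)) (hη.comp (hm _ _))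
    (fun g hg => hfB _ (by
      intro h'
      apply hg
      have e : a⁻¹ * (a * g * b⁻¹) * b = g := by group
      have h'' : a⁻¹ * (a * g * b⁻¹) * b ∈ Y := h'
      rwa [e] at h''))
    (fun g hg => hξA _ (by
      intro h'
      apply hg
      have e : b⁻¹ * (b * g * c⁻¹) * c = g := by group
      have h'' : b⁻¹ * (b * g * c⁻¹) * c ∈ X := h'
      rwa [e] at h''))
  have hTT : TT μ (fun g => f (a * g * b⁻¹)) (fun g => ξ (b * g * c⁻¹))
      (fun g => η (a * g * c⁻¹)) = TT μ f ξ η := by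
    unfold TT
    have e1 : ∀ h : G, ∫⁻ k, f (a * h * b⁻¹) * ξ (b * k * c⁻¹) * η (a * (h * k) * c⁻¹) ∂μ =
        ∫⁻ k, f (a * h * b⁻¹) * ξ k * η ((a * h * b⁻¹) * k) ∂μ := by
      intro h
      rw [← key (fun k => f (a * h * b⁻¹) * ξ k * η ((a * h * b⁻¹) * k)) b c⁻¹]
      refine lintegral_congr fun k => ?_
      have e2 : a * h * b⁻¹ * (b * k * c⁻¹) = a * (h * k) * c⁻¹ := by group
      rw [e2]
    rw [lintegral_congr e1]
    exact key (fun h => ∫⁻ k, f h * ξ k * η (h * k) ∂μ) a b⁻¹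
  rw [hTT] at h1
  rw [key (fun g => f g ^ 2) a b⁻¹, key (fun g => ξ g ^ 2) b c⁻¹,
    key (fun g => η g ^ 2) a c⁻¹] at h1
  exact h1

/-- Loomis-Whitney inequality for sums. -/
theorem lw_tsum {V : Type*} (x y z : V → V → ℝ≥0∞) :
    (∑' c, ∑' b, ∑' e, x c b * y b e * z c e) ^ 2 ≤
      (∑' c, ∑' b, x c b ^ 2) * (∑' c, ∑' b, y c b ^ 2) * (∑' c, ∑' b, z c b ^ 2) := by
  have h1 : (∑' c, ∑' b, ∑' e, x c b * y b e * z c e) =
      ∑' p : V × V, x p.1 p.2 * (∑' e, y p.2 e * z p.1 e) := by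
    rw [ENNReal.tsum_prod (f := fun c b => x c b * (∑' e, y b e * z c e))]
    refine tsum_congr fun c => tsum_congr fun b => ?_
    rw [← ENNReal.tsum_mul_left]
    exact tsum_congr fun e => by rw [mul_assoc]
  rw [h1]
  refine (cs_tsum _ _).trans ?_
  have h2 : (∑' p : V × V, x p.1 p.2 ^ 2) = ∑' c, ∑' b, x c b ^ 2 :=
    ENNReal.tsum_prod (f := fun c b => x c b ^ 2)
  have h3 : (∑' p : V × V, (∑' e, y p.2 e * z p.1 e) ^ 2) ≤
      (∑' c, ∑' b, y c b ^ 2) * (∑' c, ∑' b, z c b ^ 2) := by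
    calc (∑' p : V × V, (∑' e, y p.2 e * z p.1 e) ^ 2)
        ≤ ∑' p : V × V, (∑' e, y p.2 e ^ 2) * (∑' e, z p.1 e ^ 2) :=
          ENNReal.tsum_le_tsum fun p => cs_tsum _ _
      _ = ∑' c, ∑' b, (∑' e, y b e ^ 2) * (∑' e, z c e ^ 2) :=
          ENNReal.tsum_prod (f := fun c b => (∑' e, y b e ^ 2) * (∑' e, z c e ^ 2))
      _ = ∑' c, (∑' b, ∑' e, y b e ^ 2) * (∑' e, z c e ^ 2) :=
          tsum_congr fun c => ENNReal.tsum_mul_right
      _ = _ := ENNReal.tsum_mul_left
  rw [h2, mul_assoc]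
  exact mul_le_mul_right h3 _

/-- the core decomposition theorem. -/
theorem rdi_core [MeasurableMul₂ G] (μ : Measure G) [SFinite μ] {V : Type*} [Countable V]
    (E : V → V → Set G) (hE : ∀ c b, MeasurableSet (E c b)) (A B : Set G) (N κ : ℝ≥0∞)
    (hN : ∀ g, ∑' c, ∑' b, (E c b).indicator (fun _ => (1 : ℝ≥0∞)) g ≤ N)
    (hmed : ∀ h ∈ B, ∀ k ∈ A, ∃ c b e, h ∈ E c b ∧ k ∈ E b e ∧ h * k ∈ E c e)
    (hloc : ∀ c b e, RDI μ (E b e ∩ A) (E c b ∩ B) κ) : RDI μ A B (κ * N ^ 3) := by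
  intro f ξ η hf hξ hη hfB hξA
  -- the localised functions
  let loc : (G → ℝ≥0∞) → V → V → G → ℝ≥0∞ := fun F c b => (E c b).indicator F
  have hlocm : ∀ F : G → ℝ≥0∞, Measurable F → ∀ c b, Measurable (loc F c b) :=
    fun F hF c b => hF.indicator (hE c b)
  let t : V → V → V → ℝ≥0∞ := fun c b e => TT μ (loc f c b) (loc ξ b e) (loc η c e)
  let m : (G → ℝ≥0∞) → V → V → ℝ≥0∞ := fun F c b => ∫⁻ g, loc F c b g ^ 2 ∂μ
  -- pointwise decomposition
  have hpt : ∀ h k, f h * ξ k * η (h * k) ≤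
      ∑' c, ∑' b, ∑' e, loc f c b h * loc ξ b e k * loc η c e (h * k) := by
    intro h k
    by_cases hh : h ∈ B
    · by_cases hk : k ∈ A
      · obtain ⟨c, b, e, h1, h2, h3⟩ := hmed h hh k hk
        refine le_trans (le_of_eq ?_) ((ENNReal.le_tsum c).trans' ((ENNReal.le_tsum b).trans'
          (ENNReal.le_tsum e)))
        simp only [loc]
        rw [Set.indicator_of_mem h1, Set.indicator_of_mem h2, Set.indicator_of_mem h3]
      · rw [hξA k hk]; simp
    · rw [hfB h hh]; simp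
  have hmeas3 : ∀ c b e, Measurable (fun p : G × G =>
      loc f c b p.1 * loc ξ b e p.2 * loc η c e (p.1 * p.2)) := by
    intro c b e
    exact (((hlocm f hf c b).comp measurable_fst).mul ((hlocm ξ hξ b e).comp measurable_snd)).mul
      ((hlocm η hη c e).comp measurable_mul)
  have hTle : TT μ f ξ η ≤ ∑' c, ∑' b, ∑' e, t c b e := by
    calc TT μ f ξ η ≤ ∫⁻ h, ∫⁻ k, ∑' c, ∑' b, ∑' e,
          loc f c b h * loc ξ b e k * loc η c e (h * k) ∂μ ∂μ :=
          lintegral_mono fun h => lintegral_mono fun k => hpt h k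
      _ = ∑' c, ∑' b, ∑' e, t c b e := by
          have hk : ∀ c b e (h : G), Measurable (fun k =>
              loc f c b h * loc ξ b e k * loc η c e (h * k)) := fun c b e h =>
            (hmeas3 c b e).comp measurable_prodMk_left
          have step1 : ∀ h : G, ∫⁻ k, ∑' c, ∑' b, ∑' e,
              loc f c b h * loc ξ b e k * loc η c e (h * k) ∂μ =
              ∑' c, ∑' b, ∑' e, ∫⁻ k, loc f c b h * loc ξ b e k * loc η c e (h * k) ∂μ := by
            intro h
            rw [lintegral_tsum (fun c => (Measurable.tsum fun b =>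
              Measurable.tsum fun e => hk c b e h).aemeasurable)]
            refine tsum_congr fun c => ?_
            rw [lintegral_tsum (fun b => (Measurable.tsum fun e =>
              hk c b e h).aemeasurable)]
            refine tsum_congr fun b => ?_
            rw [lintegral_tsum (fun e => (hk c b e h).aemeasurable)]
          rw [lintegral_congr step1]
          have hh : ∀ c b e, Measurable (fun h => ∫⁻ k,
              loc f c b h * loc ξ b e k * loc η c e (h * k) ∂μ) := fun c b e =>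
            (hmeas3 c b e).lintegral_prod_right'
          rw [lintegral_tsum (fun c => (Measurable.tsum fun b =>
              Measurable.tsum fun e => hh c b e).aemeasurable)]
          refine tsum_congr fun c => ?_
          rw [lintegral_tsum (fun b => (Measurable.tsum fun e =>
              hh c b e).aemeasurable)]
          refine tsum_congr fun b => ?_
          rw [lintegral_tsum (fun e => (hh c b e).aemeasurable)]
          rfl
  -- the local inequality
  have htle : ∀ c b e, t c b e ≤ sqr κ * (sqr (m f c b) * sqr (m ξ b e) * sqr (m η c e)) := by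
    intro c b e
    apply le_of_sq_le_sq
    have h1 := hloc c b e (loc f c b) (loc ξ b e) (loc η c e) (hlocm f hf c b) (hlocm ξ hξ b e)
      (hlocm η hη c e) (by
        intro g hg
        by_cases h1 : g ∈ E c b
        · have h2 : g ∉ B := fun h => hg ⟨h1, h⟩
          simp only [loc]
          rw [Set.indicator_of_mem h1, hfB g h2]
        · exact Set.indicator_of_notMem h1 _) (by
        intro g hg
        by_cases h1 : g ∈ E b e
        · have h2 : g ∉ A := fun h => hg ⟨h1, h⟩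
          simp only [loc]
          rw [Set.indicator_of_mem h1, hξA g h2]
        · exact Set.indicator_of_notMem h1 _)
    refine h1.trans (le_of_eq ?_)
    rw [mul_pow, mul_pow, mul_pow, sqr_sq, sqr_sq, sqr_sq, sqr_sq]
    simp only [m]
    ring
  have hsum : TT μ f ξ η ≤ sqr κ *
      ∑' c, ∑' b, ∑' e, sqr (m f c b) * sqr (m ξ b e) * sqr (m η c e) := by
    refine hTle.trans ?_
    rw [← ENNReal.tsum_mul_left]
    refine ENNReal.tsum_le_tsum fun c => ?_
    rw [← ENNReal.tsum_mul_left]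
    refine ENNReal.tsum_le_tsum fun b => ?_
    rw [← ENNReal.tsum_mul_left]
    exact ENNReal.tsum_le_tsum fun e => htle c b e
  -- total masses
  have hmass : ∀ F : G → ℝ≥0∞, Measurable F → ∑' c, ∑' b, m F c b ≤ N * ∫⁻ g, F g ^ 2 ∂μ := by
    intro F hF
    have hsq : ∀ c b, Measurable (fun g => loc F c b g ^ 2) := fun c b =>
      (hlocm F hF c b).pow_const 2
    have e1 : ∑' c, ∑' b, m F c b = ∫⁻ g, ∑' c, ∑' b, loc F c b g ^ 2 ∂μ := by
      rw [lintegral_tsum (fun c => (Measurable.tsum fun b => hsq c b).aemeasurable)]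
      refine tsum_congr fun c => ?_
      rw [lintegral_tsum (fun b => (hsq c b).aemeasurable)]
    rw [e1, ← lintegral_const_mul _ (hF.pow_const 2)]
    refine lintegral_mono fun g => ?_
    have e2 : ∀ c b, loc F c b g ^ 2 = (E c b).indicator (fun _ => (1 : ℝ≥0∞)) g * F g ^ 2 := by
      intro c b
      simp only [loc]
      by_cases h : g ∈ E c b
      · rw [Set.indicator_of_mem h, Set.indicator_of_mem h, one_mul]
      · rw [Set.indicator_of_notMem h, Set.indicator_of_notMem h]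
        simp
    have e3 : ∑' c, ∑' b, loc F c b g ^ 2 =
        (∑' c, ∑' b, (E c b).indicator (fun _ => (1 : ℝ≥0∞)) g) * F g ^ 2 := by
      rw [← ENNReal.tsum_mul_right]
      refine tsum_congr fun c => ?_
      rw [← ENNReal.tsum_mul_right]
      exact tsum_congr fun b => e2 c b
    show ∑' c, ∑' b, loc F c b g ^ 2 ≤ N * F g ^ 2
    rw [e3]
    exact mul_le_mul_left (hN g) _
  calc (TT μ f ξ η) ^ 2 ≤ (sqr κ *
        ∑' c, ∑' b, ∑' e, sqr (m f c b) * sqr (m ξ b e) * sqr (m η c e)) ^ 2 :=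
        pow_le_pow_left₀ (zero_le) hsum 2
    _ = κ * (∑' c, ∑' b, ∑' e, sqr (m f c b) * sqr (m ξ b e) * sqr (m η c e)) ^ 2 := by
        rw [mul_pow, sqr_sq]
    _ ≤ κ * ((∑' c, ∑' b, sqr (m f c b) ^ 2) * (∑' c, ∑' b, sqr (m ξ c b) ^ 2) *
        (∑' c, ∑' b, sqr (m η c b) ^ 2)) :=
        mul_le_mul_right (lw_tsum _ _ _) _
    _ = κ * ((∑' c, ∑' b, m f c b) * (∑' c, ∑' b, m ξ c b) * (∑' c, ∑' b, m η c b)) := by
        simp only [sqr_sq]
    _ ≤ κ * ((N * ∫⁻ g, f g ^ 2 ∂μ) * (N * ∫⁻ g, ξ g ^ 2 ∂μ) * (N * ∫⁻ g, η g ^ 2 ∂μ)) := by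
        refine mul_le_mul_right ?_ _
        exact mul_le_mul' (mul_le_mul' (hmass f hf) (hmass ξ hξ)) (hmass η hη)
    _ = κ * N ^ 3 * (∫⁻ g, f g ^ 2 ∂μ) * (∫⁻ g, ξ g ^ 2 ∂μ) * (∫⁻ g, η g ^ 2 ∂μ) := by ring

end Pool.Agent.H58RD
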